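import Pool.Agent.MP_570645_al.H18.Sol3

/-! A relatively free quotient of the associated Lie ring of a relatively free group of prime
exponent. -/

namespace Pool.Agent.Results.MP_570645_al.Sol3Free

open Pool.Agent.MP_570645_al.H18

/-- `lcsI H k` is the term `γ_(k+1)(H)` of the lower central series of the ideal `H`:
`γ_1(H) = H`, `γ_(k+1)(H) = [H, γ_k(H)]`. -/
def lcsI {M : Type} [LieRing M] (H : LieIdeal ℤ M) (k : ℕ) : LieIdeal ℤ M :=
  (fun N : LieIdeal ℤ M => ⁅H, N⁆)^[k] H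

theorem lcsI_succ {M : Type} [LieRing M] (H : LieIdeal ℤ M) (k : ℕ) :
    lcsI H (k + 1) = ⁅H, lcsI H k⁆ := Function.iterate_succ_apply' _ _ _

/-- The ideal `M''' ∩ γ_p(M')`. -/
def JI (p : ℕ) (M : Type) [LieRing M] : LieIdeal ℤ M :=
  LieAlgebra.derivedSeries ℤ M 3 ⊓ lcsI (LieAlgebra.derivedSeries ℤ M 1) (p - 1)

section Lie

variable {A B : Type} [LieRing A] [LieRing B]

theorem lcsI_map_le (φ : A →ₗ⁅ℤ⁆ B) (k : ℕ) :
    (lcsI (LieAlgebra.derivedSeries ℤ A 1) k).map φ ≤ lcsI (LieAlgebra.derivedSeries ℤ B 1) k := by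
  induction k with
  | zero => exact LieIdeal.derivedSeries_map_le 1
  | succ k ih =>
    rw [lcsI_succ, lcsI_succ]
    exact (LieIdeal.map_bracket_le φ).trans
      (LieSubmodule.mono_lie (LieIdeal.derivedSeries_map_le 1) ih)

theorem lcsI_map_eq (φ : A →ₗ⁅ℤ⁆ B) (hφ : Function.Surjective φ) (k : ℕ) :
    (lcsI (LieAlgebra.derivedSeries ℤ A 1) k).map φ = lcsI (LieAlgebra.derivedSeries ℤ B 1) k := by
  induction k with
  | zero => exact LieIdeal.derivedSeries_map_eq 1 hφ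
  | succ k ih =>
    rw [lcsI_succ, lcsI_succ, LieIdeal.map_bracket_eq φ hφ, ih, LieIdeal.derivedSeries_map_eq 1 hφ]

theorem JI_killed (p : ℕ) (ψ : A →ₗ⁅ℤ⁆ A ⧸ JI p A) : ∀ a ∈ JI p A, ψ a = 0 := by
  intro a ha
  have h1 : ψ a ∈ LieAlgebra.derivedSeries ℤ (A ⧸ JI p A) 3 :=
    LieIdeal.derivedSeries_map_le 3 (LieIdeal.mem_map ha.1)
  have h2 := lcsI_map_le ψ (p - 1) (LieIdeal.mem_map ha.2)
  rw [← LieIdeal.derivedSeries_map_eq (f := qm _) 3 (qm_surj _)] at h1
  rw [← lcsI_map_eq (qm _) (qm_surj _)] at h2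
  obtain ⟨c, hc⟩ := LieIdeal.mem_map_of_surjective (qm_surj _) h1
  obtain ⟨d, hd⟩ := LieIdeal.mem_map_of_surjective (qm_surj _) h2
  have h3 : (c : A) - d ∈ JI p A := by rw [← qm_eq_zero, map_sub, hc, hd, sub_self]
  rw [← hc, qm_eq_zero]
  refine ⟨c.2, ?_⟩
  have := add_mem h3.2 d.2
  rwa [sub_add_cancel] at this

theorem NI_le_lcsI {p : ℕ} (hp : 1 ≤ p) :
    NI p A ≤ lcsI (LieAlgebra.derivedSeries ℤ A 1) (p - 1) := by
  refine LieSubmodule.lieSpan_le.2 ?_
  rintro v ⟨c, hc, hv⟩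
  refine XS_ind (P := fun v => v ∈ lcsI (LieAlgebra.derivedSeries ℤ A 1) (p - 1)) (zero_mem _)
    (fun a b h h' => add_mem h h') (fun a h => neg_mem h) ?_ (hv.mem_XS (p - 1) (by omega))
  intro s u hs
  rw [← hs]
  clear hs
  induction s with
  | nil => exact act_mem _ u hc
  | cons w s ih =>
    rw [List.length_cons, lcsI_succ]
    exact LieSubmodule.lie_mem_lie (act_mem _ w hc) ih

end Lie

theorem freeOn (V : Subgroup (FreeGroup ℕ)) [V.Normal]
    (hV : ∀ f : FreeGroup ℕ →* FreeGroup ℕ, ∀ w ∈ V, f w ∈ V) :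
    FreeOn fun n => (QuotientGroup.mk (FreeGroup.of n) : FreeGroup ℕ ⧸ V) where
  gen := by
    rw [eq_top_iff]
    rintro g -
    obtain ⟨w, rfl⟩ := QuotientGroup.mk_surjective g
    induction w with
    | C1 => exact one_mem _
    | of n => exact Subgroup.subset_closure ⟨n, rfl⟩
    | inv_of n h => exact inv_mem h
    | mul a b h h' => exact mul_mem h h'
  ext g := by
    choose w hw using fun n => QuotientGroup.mk_surjective (g n)
    exact ⟨QuotientGroup.map V V (FreeGroup.lift w) fun a ha => hV _ a ha, fun n => by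
      rw [QuotientGroup.map_mk, FreeGroup.lift_apply_of, hw]⟩

/-- For every variety of groups of prime exponent `p`, with `L` the associated Lie ring of its
free group of countable rank, `L / (L''' ∩ γ_p(L'))` is a relatively free Lie ring. -/
theorem result (p : ℕ) (hp : p.Prime) (V : Subgroup (FreeGroup ℕ)) [V.Normal]
    (hV : ∀ f : FreeGroup ℕ →* FreeGroup ℕ, ∀ w ∈ V, f w ∈ V)
    (hpow : ∀ w : FreeGroup ℕ, w ^ p ∈ V) :
    RelFree (AL (FreeGroup ℕ ⧸ V) ⧸ JI p (AL (FreeGroup ℕ ⧸ V))) := by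
  have he : ∀ g : FreeGroup ℕ ⧸ V, g ^ p = 1 := fun g => by
    obtain ⟨w, rfl⟩ := QuotientGroup.mk_surjective g
    rw [← QuotientGroup.mk_pow, QuotientGroup.eq_one_iff]
    exact hpow w
  have hx := freeOn V hV
  exact relFree_quot hx hp he _
    (le_inf (NI_le_derived hp (al_torsion he) (hx.engel hp he)) (NI_le_lcsI hp.one_le))
    (JI_killed p)

/-- The laws of the finite groups of exponent `p`; the quotient is the free Kostrikin group. -/
def lawsK (p : ℕ) : Subgroup (FreeGroup ℕ) where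
  carrier := {w | ∀ (H : Type) [Group H] [Finite H], (∀ h : H, h ^ p = 1) →
    ∀ f : FreeGroup ℕ →* H, f w = 1}
  mul_mem' ha hb H _ _ h f := by rw [map_mul, ha H h f, hb H h f, mul_one]
  one_mem' H _ _ _ f := map_one f
  inv_mem' ha H _ _ h f := by rw [map_inv, ha H h f, inv_one]

instance (p : ℕ) : (lawsK p).Normal :=
  ⟨fun a ha g H _ _ h f => by rw [map_mul, map_mul, ha H h f, mul_one, map_inv, mul_inv_cancel]⟩

/-- The instance `K(p)`. -/
theorem kostrikin (p : ℕ) (hp : p.Prime) :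
    RelFree (AL (FreeGroup ℕ ⧸ lawsK p) ⧸ JI p (AL (FreeGroup ℕ ⧸ lawsK p))) :=
  result p hp (lawsK p) (fun f _ hw H _ _ h g => hw H h (g.comp f))
    fun w H _ _ h f => by rw [map_pow, h]

end Pool.Agent.Results.MP_570645_al.Sol3Free
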