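import Pool.Agent.MP_570645_al.H38.Model
import Pool.Agent.MP_570645_al.H38.Wall

/-! For every prime `p ≥ 5` the associated Lie ring of a relatively free group of exponent `p`
satisfies an identity that does not follow from characteristic `p` and the Engel identity. -/

namespace Pool.Agent.Results.MP_570645_al.WallNotEngel

open Pool.Agent.MP_570645_al.H18 Pool.Agent.MP_570645_al.H38

theorem freeOn (V : Subgroup (FreeGroup ℕ)) [V.Normal]
    (hV : ∀ f : FreeGroup ℕ →* FreeGroup ℕ, ∀ w ∈ V, f w ∈ V) :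
    FreeOn fun n => (QuotientGroup.mk (FreeGroup.of n) : FreeGroup ℕ ⧸ V) where
  gen := by
    rw [eq_top_iff]
    rintro g -
    obtain ⟨w, rfl⟩ := QuotientGroup.mk_surjective g
    induction w with
    | C1 => exact one_mem _
    | of n => exact Subgroup.subset_closure ⟨n, rfl⟩
    | inv_of n h => exact inv_mem h
    | mul a b h h' => exact mul_mem h h'
  ext g := by
    choose w hw using fun n => QuotientGroup.mk_surjective (g n)
    exact ⟨QuotientGroup.map V V (FreeGroup.lift w) fun a ha => hV _ a ha, fun n => by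
      rw [QuotientGroup.map_mk, FreeGroup.lift_apply_of, hw]⟩

theorem iter_flip {M : Type} [LieRing M] (x y : M) (k : ℕ) :
    (fun v => ⁅v, x⁆)^[k] y = (fun v => ⁅-x, v⁆)^[k] y := by
  congr 1
  funext v
  rw [neg_lie, lie_skew]

theorem map_KK' {M : Type} [LieRing M] {n : ℕ} (W : List (List (Fin n)))
    (φ : FreeLieAlgebra ℤ ℕ →ₗ⁅ℤ⁆ M) (b : Fin (n + 1) → FreeLieAlgebra ℤ ℕ) :
    φ (KK W b) = KK W (φ ∘ b) :=
  map_KK W (mkLie φ.toLinearMap.toAddMonoidHom φ.map_lie) b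

/-- For every prime `p ≥ 5` and every variety of groups of exponent `p`, the associated Lie ring
of its free group of countable rank satisfies a Lie identity `w = 0` which fails in some Lie ring
of characteristic `p` satisfying the Engel identity `[y, x, …, x] = 0` with `p - 1` entries `x`. -/
theorem result (p : ℕ) (hp : p.Prime) (h5 : 5 ≤ p) (V : Subgroup (FreeGroup ℕ)) [V.Normal]
    (hV : ∀ f : FreeGroup ℕ →* FreeGroup ℕ, ∀ w ∈ V, f w ∈ V)
    (hpow : ∀ w : FreeGroup ℕ, w ^ p ∈ V) :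
    ∃ w : FreeLieAlgebra ℤ ℕ,
      (∀ φ : FreeLieAlgebra ℤ ℕ →ₗ⁅ℤ⁆ AL (FreeGroup ℕ ⧸ V), φ w = 0) ∧
      ∃ (M : Type) (_ : LieRing M), (∀ m : M, p • m = 0) ∧
        (∀ x y : M, (fun v => ⁅v, x⁆)^[p - 1] y = 0) ∧
        ∃ φ : FreeLieAlgebra ℤ ℕ →ₗ⁅ℤ⁆ M, φ w ≠ 0 := by
  have he : ∀ g : FreeGroup ℕ ⧸ V, g ^ p = 1 := fun g => by
    obtain ⟨w, rfl⟩ := QuotientGroup.mk_surjective g
    rw [← QuotientGroup.mk_pow, QuotientGroup.eq_one_iff]
    exact hpow w
  have := Fact.mk hp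
  obtain ⟨M, _, h1, h2, y, v, h3⟩ := exists_bad (p := p) h5
  refine ⟨KK (wallW p (2 * p - 2)) fun i => FreeLieAlgebra.of ℤ (i : ℕ), fun φ => ?_, M,
    inferInstance, h1, fun x y => by rw [iter_flip, h2], FreeLieAlgebra.lift ℤ fun m =>
      if h : m < 2 * p - 2 + 1 then (Fin.cons v y : Fin (2 * p - 2 + 1) → M) ⟨m, h⟩ else 0, ?_⟩
  · rw [map_KK']
    exact wall_all (freeOn V hV) he _ _
  · rw [map_KK']
    refine fun h => h3 ?_
    have e : ∀ b : Fin (2 * p - 2 + 1) → M, b = Fin.cons v y →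
        KK (wallW p (2 * p - 2)) b = 0 → _ := fun b hb h => by
      rw [hb, KK] at h
      simp only [List.map_map] at h
      exact h
    refine e _ (funext fun i => ?_) h
    exact (FreeLieAlgebra.lift_of_apply _ _).trans (dif_pos i.2)

/-- The laws of the finite groups of exponent `p`; the quotient is the free Kostrikin group. -/
def lawsK (p : ℕ) : Subgroup (FreeGroup ℕ) where
  carrier := {w | ∀ (H : Type) [Group H] [Finite H], (∀ h : H, h ^ p = 1) →
    ∀ f : FreeGroup ℕ →* H, f w = 1}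
  mul_mem' ha hb H _ _ h f := by rw [map_mul, ha H h f, hb H h f, mul_one]
  one_mem' H _ _ _ f := map_one f
  inv_mem' ha H _ _ h f := by rw [map_inv, ha H h f, inv_one]

instance (p : ℕ) : (lawsK p).Normal :=
  ⟨fun a ha g H _ _ h f => by rw [map_mul, map_mul, ha H h f, mul_one, map_inv, mul_inv_cancel]⟩

/-- The instance `K(p)`. -/
theorem kostrikin (p : ℕ) (hp : p.Prime) (h5 : 5 ≤ p) :
    ∃ w : FreeLieAlgebra ℤ ℕ,
      (∀ φ : FreeLieAlgebra ℤ ℕ →ₗ⁅ℤ⁆ AL (FreeGroup ℕ ⧸ lawsK p), φ w = 0) ∧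
      ∃ (M : Type) (_ : LieRing M), (∀ m : M, p • m = 0) ∧
        (∀ x y : M, (fun v => ⁅v, x⁆)^[p - 1] y = 0) ∧
        ∃ φ : FreeLieAlgebra ℤ ℕ →ₗ⁅ℤ⁆ M, φ w ≠ 0 :=
  result p hp h5 (lawsK p) (fun f _ hw H _ _ h g => hw H h (g.comp f))
    fun w H _ _ h f => by rw [map_pow, h]

end Pool.Agent.Results.MP_570645_al.WallNotEngel
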